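import Pool.Agent.C4U.Stmts

set_option autoImplicit false

namespace Pool.Agent.C4U.H94

open Pool.Agent.C4F (cn)

theorem cn_lt {P Q : ℕ → Prop} {n : ℕ} (h : ∀ v < n, P v → Q v) {w : ℕ} (hw : w < n) (hq : Q w)
    (hp : ¬ P w) : cn P n < cn Q n := by
  classical
  unfold cn
  rw [Nat.count_eq_card_filter_range, Nat.count_eq_card_filter_range]
  apply Finset.card_lt_card
  rw [Finset.ssubset_iff_of_subset]
  · refine ⟨w, ?_, ?_⟩
    · simp [hw, hq]
    · simp [hp]
  · intro v hv
    simp only [Finset.mem_filter, Finset.mem_range] at hv ⊢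
    exact ⟨hv.1, h v hv.1 hv.2⟩

theorem cl_symm {V : Gr} (h : V.Ok4) {x y : ℕ} (hc : V.Cl x y) : V.Cl y x := by
  rcases hc with rfl | hc
  · exact Or.inl rfl
  · exact Or.inr (h.symm _ _ hc)

theorem nest {V : Gr} (h : V.Ok4) {P R : ℕ → Prop} (hR : ∀ x, R x → x < V.N)
    (hPc : ∀ x y, P x → P y → V.Cl x y) (hRc : ∀ x y, R x → R y → V.Cl x y) {x x' : ℕ} (hx : P x)
    (hx' : P x') (hle : V.rr R x' ≤ V.rr R x) : ∀ y, R y → V.Cl x' y → V.Cl x y := by
  intro y' hy' hc'
  by_contra hn
  by_cases hsub : ∀ y, R y → V.Cl x y → V.Cl x' y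
  · have hlt : V.rr R x < V.rr R x' := by
      unfold Gr.rr
      refine cn_lt (w := y') ?_ (hR _ hy') ⟨hy', hc'⟩ (fun hh => hn hh.2)
      intro v _ hv
      exact ⟨hv.1, hsub v hv.1 hv.2⟩
    omega
  · push Not at hsub
    obtain ⟨y, hy, hc, hnc⟩ := hsub
    have h1 : y ≠ x := by
      rintro rfl
      exact hn (hRc _ _ hy hy')
    have h2 : y' ≠ x' := by
      rintro rfl
      exact hnc (hRc _ _ hy' hy)
    have h3 : y ≠ x' := by
      rintro rfl
      exact hnc (Or.inl rfl)
    have h4 : y' ≠ x := by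
      rintro rfl
      exact hn (Or.inl rfl)
    have h5 : x ≠ x' := by
      rintro rfl
      exact hn hc'
    have h6 : y ≠ y' := by
      rintro rfl
      exact hn hc
    have a1 : V.A x y := by
      rcases hc with e | e
      · exact absurd e.symm h1
      · exact e
    have a2 : V.A y y' := by
      rcases hRc _ _ hy hy' with e | e
      · exact absurd e h6
      · exact e
    have a3 : V.A y' x' := by
      rcases hc' with e | e
      · exact absurd e.symm h2
      · exact h.symm _ _ e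
    have a4 : V.A x' x := by
      rcases hPc _ _ hx' hx with e | e
      · exact absurd e.symm h5
      · exact e
    have a5 : ¬ V.A x y' := fun e => hn (Or.inr e)
    have a6 : ¬ V.A y x' := fun e => hnc (Or.inr (h.symm _ _ e))
    exact h3 (h.free x y y' x' a1 a2 a3 a4 a5 a6 (Ne.symm h4))

theorem nst (cnl : CnlStmt) : NstStmt := by
  intro V h4 P R hP hR hPc hRc x y hx hy
  obtain ⟨c1, c2, -, -, -⟩ := cnl
  have hdown : ∀ u v, u ≤ v → (∀ x < V.N, P x → V.Cl x y → v < V.rr R x) →
      (∀ x < V.N, P x → V.Cl x y → u < V.rr R x) := by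
    intro u v huv hv z hz hpz hcz
    exact lt_of_le_of_lt huv (hv z hz hpz hcz)
  have hc2 := c2 (fun v => ∀ x < V.N, P x → V.Cl x y → v < V.rr R x) (V.N + 1) hdown
  constructor
  · intro hc
    by_contra hlt
    push Not at hlt
    exact absurd (hc2.1 _ hlt x (hP x hx) hx hc) (lt_irrefl _)
  · intro hle
    have hN : V.rr R x ≤ V.N := c1 _ _
    have ht : V.tt P R y < V.N + 1 := by omega
    have hf := hc2.2 ht
    push Not at hf
    obtain ⟨x', hx'N, hx', hcx', hle'⟩ := hf
    exact nest h4 hR hPc hRc hx hx' (le_trans hle' hle) y hy hcx'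

end Pool.Agent.C4U.H94
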